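import Pool.Agent.X95T.HL1

/-!
The Hall–Lang conjecture for the elliptic curves `y ^ 2 = x ^ 3 + A x + B` with a rational point
`T = (u, v)` of order four.
-/

set_option autoImplicit false

namespace Pool.Agent.Results.MP_a1107e_nt.FourTorsion

/-- Let `T = (u, v)` be a point of order four of the nonsingular curve `y ^ 2 = x ^ 3 + A x + B`
and `2 T = (u', 0)` (all integers): `v ≠ 0` and the tangent at `T`, of slope `l`, meets the curve
again at `(u', 0)`. With an absolute exponent `M` and a constant `K` depending only on the finite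
set `S` of primes, all integral points `(x, y)` of all those curves for which the prime factors of
`v` lie in `S` satisfy `max |x| |y| ≤ K (max |A| |B|) ^ M`. -/
theorem result : ∃ M : ℕ, ∀ S : Finset ℕ, ∃ K : ℕ, ∀ A B u v l u' : ℤ,
    4 * A ^ 3 + 27 * B ^ 2 ≠ 0 → v ^ 2 = u ^ 3 + A * u + B → v ≠ 0 →
    2 * v * l = 3 * u ^ 2 + A → l ^ 2 = 2 * u + u' → v + l * (u' - u) = 0 →
    (∀ q : ℕ, q.Prime → (q : ℤ) ∣ v → q ∈ S) →
    ∀ x y : ℤ, y ^ 2 = x ^ 3 + A * x + B →
      max x.natAbs y.natAbs ≤ K * (max A.natAbs B.natAbs) ^ M :=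
  Pool.Agent.X95T.four

end Pool.Agent.Results.MP_a1107e_nt.FourTorsion
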