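import Pool.Agent.X95T.HP7

/-!
The Hall–Lang conjecture for elliptic curves `y ^ 2 = x ^ 3 + A x + B` with a rational isogeny of
degree three whose kernel is defined over a fixed quadratic field `ℚ(√D)`.
-/

set_option autoImplicit false

namespace Pool.Agent.Results.MP_a1107e_nt.ThreeIsogeny

/-- There is an absolute exponent `M` such that for every squarefree integer `D ≠ 1` and every
finite set `S` of primes there is a constant `K` with the following property. Let
`y ^ 2 = x ^ 3 + A x + B` (`A`, `B` integers) be a nonsingular curve with a rational subgroup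
`{O, (u, v √D), (u, - v √D)}` of order three, that is, `u` is a root of the 3-division polynomial
and `u ^ 3 + A u + B = D v ^ 2` (`u`, `v` integers). Then every integral point `(x, y)` of the
curve for which every common prime factor of `x - u` and `v` belongs to `S` satisfies
`max |x| |y| ≤ K max(|A|, |B|) ^ M`. -/
theorem result : ∃ M : ℕ, ∀ D : ℤ, Squarefree D → D ≠ 1 → ∀ S : Finset ℕ, ∃ K : ℕ,
    ∀ A B u v : ℤ, 4 * A ^ 3 + 27 * B ^ 2 ≠ 0 →
      3 * u ^ 4 + 6 * A * u ^ 2 + 12 * B * u - A ^ 2 = 0 →
      u ^ 3 + A * u + B = D * v ^ 2 →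
      ∀ x y : ℤ, y ^ 2 = x ^ 3 + A * x + B →
        (∀ q : ℕ, q.Prime → (q : ℤ) ∣ x - u → (q : ℤ) ∣ v → q ∈ S) →
        max x.natAbs y.natAbs ≤ K * (max A.natAbs B.natAbs) ^ M :=
  Pool.Agent.X95T.SelN.threeIsogeny

end Pool.Agent.Results.MP_a1107e_nt.ThreeIsogeny
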