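import Pool.Agent.X95T.H

/-!
The Hall–Lang conjecture for the elliptic curves `y ^ 2 = x ^ 3 + A x + B` with a rational point
`T = (u, v)` of order three.
-/

set_option autoImplicit false

namespace Pool.Agent.Results.MP_a1107e_nt.ThreeTorsion

/-- Let `T = (u, v)` be a point of order three of the nonsingular curve `y ^ 2 = x ^ 3 + A x + B`
(`A`, `B`, `u`, `v` integers); the tangent line at `T` is an inflection tangent, of slope `l`. Put
`H = max |A| |B|`.
Part 1: with absolute constants `K`, `M`, all integral points `(x, y)` of all these curves with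
`gcd(y - v - l (x - u), 2 v) = 1` satisfy `max |x| |y| ≤ K H ^ M`.
Part 2: with an absolute `M` and a constant `K` depending only on the finite set `S` of primes, ALL
integral points of all those of these curves for which the prime factors of `v` belong to `S`
satisfy `max |x| |y| ≤ K H ^ M`. -/
theorem result :
    (∃ K M : ℕ, ∀ A B u v l : ℤ, 4 * A ^ 3 + 27 * B ^ 2 ≠ 0 → v ^ 2 = u ^ 3 + A * u + B →
      2 * v * l = 3 * u ^ 2 + A → l ^ 2 = 3 * u →
      ∀ x y : ℤ, y ^ 2 = x ^ 3 + A * x + B → IsCoprime (y - v - l * (x - u)) (2 * v) →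
        max x.natAbs y.natAbs ≤ K * (max A.natAbs B.natAbs) ^ M) ∧
    (∃ M : ℕ, ∀ S : Finset ℕ, ∃ K : ℕ, ∀ A B u v l : ℤ, 4 * A ^ 3 + 27 * B ^ 2 ≠ 0 →
      v ^ 2 = u ^ 3 + A * u + B → 2 * v * l = 3 * u ^ 2 + A → l ^ 2 = 3 * u →
      (∀ q : ℕ, q.Prime → (q : ℤ) ∣ v → q ∈ S) →
      ∀ x y : ℤ, y ^ 2 = x ^ 3 + A * x + B →
        max x.natAbs y.natAbs ≤ K * (max A.natAbs B.natAbs) ^ M) := by
  have hcurve : ∀ A B u v l x y : ℤ, v ^ 2 = u ^ 3 + A * u + B →
      2 * v * l = 3 * u ^ 2 + A → l ^ 2 = 3 * u → y ^ 2 = x ^ 3 + A * x + B →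
      MvPolynomial.eval ![x - u, y - v - l * (x - u)]
        (Pool.Agent.X95T.cub (2 * l) (2 * v)) = 0 := by
    intro A B u v l x y hT h2 h3 hE
    rw [Pool.Agent.X95T.eval_cub]
    linear_combination hE - hT - (x - u) * h2 - (x - u) ^ 2 * h3
  have hne : ∀ A B u v l : ℤ, 4 * A ^ 3 + 27 * B ^ 2 ≠ 0 → v ^ 2 = u ^ 3 + A * u + B →
      2 * v * l = 3 * u ^ 2 + A → l ^ 2 = 3 * u → v ≠ 0 ∧ (2 * l) ^ 3 ≠ 27 * (2 * v) := by
    intro A B u v l hD hT h2 h3
    rw [Pool.Agent.X95T.disc A B u v l hT h2 h3] at hD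
    constructor
    · rintro rfl
      apply hD
      ring
    · intro h
      apply hD
      have : 27 * v - 4 * l ^ 3 = 0 := by
        have h4 : 2 * (27 * v - 4 * l ^ 3) = 0 := by linear_combination -h
        omega
      rw [this, mul_zero]
  have hideal : ∀ v l : ℤ, Polynomial.C (-(2 * l)) * Polynomial.X + 1 *
      MvPolynomial.aeval ![Polynomial.X, (0 : Polynomial ℤ)]
        (MvPolynomial.pderiv 1 (Pool.Agent.X95T.cub (2 * l) (2 * v))) =
      Polynomial.C (2 * v) := by
    intro v l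
    rw [Pool.Agent.X95T.deriv_cub, Polynomial.C_neg]
    ring
  constructor
  · obtain ⟨C, hC⟩ := Pool.Agent.Results.MP_821da1_nt.TangentLine.result 3 2 1 (by norm_num)
      (by norm_num) (by norm_num) (by norm_num)
    refine ⟨(2000 * (C + 1)) ^ (C + 3), 3 * (C + 3), ?_⟩
    intro A B u v l hD hT h2 h3 x y hE hcop
    obtain ⟨hv0, h27⟩ := hne A B u v l hD hT h2 h3
    apply Pool.Agent.X95T.final_bound hD hT h2 h3
    apply hC (Pool.Agent.X95T.cub (2 * l) (2 * v)) Polynomial.X (Polynomial.C (-(2 * l))) 1 (2 * v)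
      (Pool.Agent.X95T.weights_cub _ _) (Pool.Agent.X95T.line_cub _ _) (hideal v l)
    · have h := Pool.Agent.X95T.irr_cub 1 (2 * l) (2 * v) one_ne_zero h27
      rw [Pool.Agent.X95T.sub, map_one, one_mul] at h
      exact h
    · have h := Pool.Agent.X95T.irr_cub (-1) (2 * l) (2 * v) (by norm_num) h27
      rw [Pool.Agent.X95T.sub, map_neg, map_one, neg_one_mul] at h
      exact h
    · exact hcurve A B u v l x y hT h2 h3 hE
    · exact hcop
  · obtain ⟨C, hC⟩ := Pool.Agent.Results.MP_821da1_nt.TangentLineUniform.result 3 2 1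
      Nat.prime_three (by norm_num) (by norm_num) (by norm_num) (by norm_num)
    refine ⟨3 * (C + 3), ?_⟩
    intro S
    obtain ⟨c, hc⟩ := hC (insert 2 S)
    refine ⟨(2000 * (c + 1)) ^ (C + 3), ?_⟩
    intro A B u v l hD hT h2 h3 hS x y hE
    obtain ⟨hv0, h27⟩ := hne A B u v l hD hT h2 h3
    apply Pool.Agent.X95T.final_bound hD hT h2 h3
    apply hc (Pool.Agent.X95T.cub (2 * l) (2 * v)) Polynomial.X (Polynomial.C (-(2 * l))) 1 (2 * v)
      (Pool.Agent.X95T.weights_cub _ _) (Pool.Agent.X95T.line_cub _ _) (hideal v l)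
    · omega
    · intro q hq hqv
      rcases (Nat.prime_iff_prime_int.1 hq).dvd_or_dvd hqv with h | h
      · have h4 : q ∣ 2 := by exact_mod_cast h
        rw [(Nat.prime_dvd_prime_iff_eq hq Nat.prime_two).1 h4]
        exact Finset.mem_insert_self _ _
      · exact Finset.mem_insert_of_mem (hS q hq h)
    · intro a ha
      exact Pool.Agent.X95T.irr_cub a (2 * l) (2 * v) ha h27
    · exact hcurve A B u v l x y hT h2 h3 hE

end Pool.Agent.Results.MP_a1107e_nt.ThreeTorsion
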